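import Mathlib

/-!
# ANO5, module QH: simultaneous approximation (package QH-KRON)

`z_1, …, z_d` are complex numbers of modulus `1`, none of them a root of unity.  Then there is a
limit point `g` of the sequence `(z_1 ^ n, …, z_d ^ n)` with `g_i = -1` for some `i` and `g_i ≠ 1`
for all `i`.

PROOF. Let `z_i = exp (2 π i θ_i)` and let `H ⊆ ℝ^d` be the set of all `x` such that
`(exp (2 π i x_j))_j` is in the closure `G` of `{(z_j ^ n)_j | n ∈ ℤ}`. `H` is a closed subgroup of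
`ℝ^d` (`closed_subgroup`). Put `V = {v | ∀ t : ℝ, t • v ∈ H}`.
(1) `exists_line`: `V` is a linear subspace (closed under sums because `H` is a subgroup), and there
is `ε > 0` such that `x ∈ H`, `‖x‖ < ε` implies `x ∈ V`. Otherwise there are `x_n ∈ H \ V`,
`x_n → 0`. Write `x_n = v_n + y_n` with `v_n ∈ V` and `y_n` in the orthogonal complement (use
`EuclideanSpace ℝ (Fin d)`), so `y_n ∈ H`, `y_n ≠ 0`, `y_n → 0`. A subsequence of `y_n / ‖y_n‖`
converges to a unit vector `u`, orthogonal to `V`. For `t : ℝ` put `m_n = ⌊t / ‖y_n‖⌋ : ℤ`; then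
`m_n • y_n ∈ H` converges to `t • u`, so `t • u ∈ H` for all `t`, `u ∈ V`: contradiction.
(2) For every `j` there is `v ∈ V` with `v j ≠ 0`: by compactness (pigeonhole) for every `ε` there
are `n > m` with `‖z_i ^ n - z_i ^ m‖` small for all `i`, so `z_i ^ (n - m)` is close to `1` for all
`i`, and `z_i ^ (n - m) = exp (2 π i x_i)` with a small vector `x ∈ H`, `‖x‖ < ε`; `x j ≠ 0` because
`z_j ^ (n - m) ≠ 1`. By (1) `x ∈ V`.
(3) There is `v ∈ V` with `v j ≠ 0` for all `j`: a real vector space is not a finite union of proper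
subspaces (`Subspace.biUnion_ne_univ_of_top_notMem` for `V`, or: add the vectors one after the other
with small coefficients). Scale it such that `max |v_j| = 1 / 2` (`d > 0`), `g_j = exp (2 π i v_j)`:
`g_i = -1` for the `i` with the maximum (`exp (± π i) = -1`), `g_j ≠ 1` because `0 < |v_j| ≤ 1 / 2`.
(4) `g ∈ G`: for `ε > 0` there is `m ∈ ℤ` with `‖z_i ^ m - g_i‖ < ε / 2` for all `i`, and by (2)
(the powers of one small `x`, or the pigeonhole principle) there are arbitrarily large `n : ℕ` with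
`‖z_i ^ n - 1‖ < ε / 2` for all `i`; take `m + n`.
-/

set_option autoImplicit false

open Filter Topology

namespace Pool.Agent.ANO5.QH

/-- A closed subgroup of `ℝ^d` coincides near `0` with a linear subspace. -/
theorem exists_line {d : ℕ} (H : AddSubgroup (EuclideanSpace ℝ (Fin d)))
    (hH : IsClosed (H : Set (EuclideanSpace ℝ (Fin d)))) :
    ∃ V : Submodule ℝ (EuclideanSpace ℝ (Fin d)), (V : Set (EuclideanSpace ℝ (Fin d))) ⊆ H ∧
      ∃ ε > 0, ∀ x ∈ H, ‖x‖ < ε → x ∈ V := by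
  let V : Submodule ℝ (EuclideanSpace ℝ (Fin d)) :=
    { carrier := {v | ∀ t : ℝ, t • v ∈ H}
      add_mem' := by
        intro a b ha hb t
        rw [smul_add]
        exact H.add_mem (ha t) (hb t)
      zero_mem' := by
        intro t
        rw [smul_zero]
        exact H.zero_mem
      smul_mem' := by
        intro c x hx t
        rw [smul_smul]
        exact hx (t * c) }
  have hVH : (V : Set (EuclideanSpace ℝ (Fin d))) ⊆ H := by
    intro v hv
    have := hv 1
    rwa [one_smul] at this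
  refine ⟨V, hVH, ?_⟩
  by_contra hcon
  push Not at hcon
  have hpos : ∀ n : ℕ, (0 : ℝ) < 1 / ((n : ℝ) + 1) := fun n => by positivity
  choose x hxH hxn hxV using fun n : ℕ => hcon _ (hpos n)
  set y : ℕ → EuclideanSpace ℝ (Fin d) := fun n => x n - V.starProjection (x n) with hy
  have hyH : ∀ n, y n ∈ H := fun n =>
    H.sub_mem (hxH n) (hVH (V.starProjection_apply_mem (x n)))
  have hyO : ∀ n, y n ∈ Vᗮ := fun n => V.sub_starProjection_mem_orthogonal (x n)
  have hy0 : ∀ n, y n ≠ 0 := by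
    intro n h0
    apply hxV n
    have h1 : x n = V.starProjection (x n) := sub_eq_zero.1 h0
    rw [h1]
    exact V.starProjection_apply_mem (x n)
  have hyn : ∀ n, ‖y n‖ ≤ ‖x n‖ := by
    intro n
    have h1 : ‖x n‖ ^ 2 = ‖V.starProjection (x n)‖ ^ 2 + ‖y n‖ ^ 2 := by
      have h2 : x n = V.starProjection (x n) + y n := by simp [hy]
      have h3 : inner ℝ (V.starProjection (x n)) (y n) = 0 :=
        Submodule.inner_right_of_mem_orthogonal (V.starProjection_apply_mem (x n)) (hyO n)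
      have h4 := norm_add_sq_real (V.starProjection (x n)) (y n)
      rw [← h2, h3] at h4
      linarith
    nlinarith [norm_nonneg (x n), norm_nonneg (y n), sq_nonneg ‖V.starProjection (x n)‖]
  have hypos : ∀ n, 0 < ‖y n‖ := fun n => norm_pos_iff.2 (hy0 n)
  have hylim : Tendsto (fun n => ‖y n‖) atTop (𝓝 0) := by
    refine squeeze_zero (fun n => norm_nonneg _) (fun n => (hyn n).trans (hxn n).le) ?_
    exact tendsto_one_div_add_atTop_nhds_zero_nat
  have hus : ∀ n, (‖y n‖)⁻¹ • y n ∈ Metric.sphere (0 : EuclideanSpace ℝ (Fin d)) 1 := by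
    intro n
    rw [mem_sphere_zero_iff_norm, norm_smul, norm_inv, norm_norm]
    exact inv_mul_cancel₀ (hypos n).ne'
  obtain ⟨u, hu, φ, hφ, hlim⟩ := (isCompact_sphere (0 : EuclideanSpace ℝ (Fin d)) 1).tendsto_subseq
    hus
  have hu1 : ‖u‖ = 1 := by simpa using hu
  have huO : u ∈ Vᗮ := by
    refine (V.isClosed_orthogonal).mem_of_tendsto hlim (Eventually.of_forall fun n => ?_)
    exact Vᗮ.smul_mem _ (hyO _)
  have huV : u ∈ V := by
    intro t
    have h1 : ∀ n, (⌊t / ‖y n‖⌋ : ℤ) • y n ∈ H := fun n => H.zsmul_mem (hyH n) _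
    have h2 : Tendsto (fun k => (⌊t / ‖y (φ k)‖⌋ : ℤ) • y (φ k)) atTop (𝓝 (t • u)) := by
      have h3 : Tendsto (fun k => t • ((‖y (φ k)‖)⁻¹ • y (φ k))) atTop (𝓝 (t • u)) :=
        hlim.const_smul t
      refine h3.congr_dist ?_
      have h4 : ∀ k, dist (t • ((‖y (φ k)‖)⁻¹ • y (φ k)))
          ((⌊t / ‖y (φ k)‖⌋ : ℤ) • y (φ k)) ≤ ‖y (φ k)‖ := by
        intro k
        have h5 : t • ((‖y (φ k)‖)⁻¹ • y (φ k)) - (⌊t / ‖y (φ k)‖⌋ : ℤ) • y (φ k)
            = (t / ‖y (φ k)‖ - (⌊t / ‖y (φ k)‖⌋ : ℝ)) • y (φ k) := by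
          rw [sub_smul, smul_smul, ← div_eq_mul_inv, Int.cast_smul_eq_zsmul]
        rw [dist_eq_norm, h5, norm_smul, Real.norm_eq_abs]
        have h6 : |t / ‖y (φ k)‖ - (⌊t / ‖y (φ k)‖⌋ : ℝ)| ≤ 1 := by
          rw [abs_of_nonneg (by linarith [Int.floor_le (t / ‖y (φ k)‖)])]
          linarith [Int.lt_floor_add_one (t / ‖y (φ k)‖)]
        calc _ ≤ 1 * ‖y (φ k)‖ := mul_le_mul_of_nonneg_right h6 (norm_nonneg _)
          _ = _ := one_mul _
      exact squeeze_zero (fun k => dist_nonneg) h4 (hylim.comp hφ.tendsto_atTop)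
    exact hH.mem_of_tendsto h2 (Eventually.of_forall fun k => h1 (φ k))
  have h7 : inner ℝ u u = 0 := Submodule.inner_right_of_mem_orthogonal huV huO
  rw [real_inner_self_eq_norm_sq, hu1] at h7
  norm_num at h7

/-- arbitrarily large simultaneous returns -/
theorem exists_return {d : ℕ} (z : Fin d → ℂ) (hz : ∀ i, ‖z i‖ = 1) {ε : ℝ} (hε : 0 < ε)
    (N : ℕ) : ∃ n : ℕ, N ≤ n ∧ 0 < n ∧ ∀ i, ‖z i ^ n - 1‖ < ε := by
  have hmem : ∀ n : ℕ, (fun i => z i ^ n) ∈ Metric.closedBall (0 : Fin d → ℂ) 1 := by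
    intro n
    rw [mem_closedBall_zero_iff, pi_norm_le_iff_of_nonneg zero_le_one]
    intro i
    rw [norm_pow, hz i, one_pow]
  obtain ⟨w, -, φ, hφ, hlim⟩ :=
    (isCompact_closedBall (0 : Fin d → ℂ) 1).tendsto_subseq hmem
  obtain ⟨K, hK⟩ := Metric.cauchySeq_iff.1 hlim.cauchySeq ε hε
  obtain ⟨l, hl⟩ := (hφ.tendsto_atTop.eventually_ge_atTop (φ K + N + 1)).and
    (eventually_ge_atTop K) |>.exists
  refine ⟨φ l - φ K, by omega, by omega, fun i => ?_⟩
  have h1 := hK l hl.2 K le_rfl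
  rw [dist_pi_lt_iff hε] at h1
  have h2 := h1 i
  simp only [Function.comp] at h2
  rw [dist_eq_norm] at h2
  have h3 : z i ^ φ l - z i ^ φ K = z i ^ φ K * (z i ^ (φ l - φ K) - 1) := by
    rw [mul_sub, ← pow_add, mul_one]
    congr 2
    omega
  rw [h3, norm_mul, norm_pow, hz i, one_pow, one_mul] at h2
  exact h2

private def KrG {d : ℕ} (z g : Fin d → ℂ) : Prop :=
  ∀ ε > 0, ∀ N : ℕ, ∃ n : ℕ, N ≤ n ∧ ∀ i, ‖z i ^ n - g i‖ < ε

private theorem kron_mul {d : ℕ} {z : Fin d → ℂ} (hz : ∀ i, ‖z i‖ = 1) {g h : Fin d → ℂ}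
    (hg : KrG z g) (hh : KrG z h) (h1 : ∀ i, ‖h i‖ = 1) : KrG z (fun i => g i * h i) := by
  intro ε hε N
  obtain ⟨n, hn, hn'⟩ := hg (ε / 2) (half_pos hε) N
  obtain ⟨m, -, hm'⟩ := hh (ε / 2) (half_pos hε) 0
  refine ⟨n + m, by omega, fun i => ?_⟩
  have h2 : z i ^ (n + m) - g i * h i = z i ^ n * (z i ^ m - h i) + (z i ^ n - g i) * h i := by
    rw [pow_add]; ring
  rw [h2]
  calc ‖z i ^ n * (z i ^ m - h i) + (z i ^ n - g i) * h i‖
      ≤ ‖z i ^ n * (z i ^ m - h i)‖ + ‖(z i ^ n - g i) * h i‖ := norm_add_le _ _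
    _ = ‖z i ^ m - h i‖ + ‖z i ^ n - g i‖ := by
        rw [norm_mul, norm_mul, norm_pow, hz i, h1 i, one_pow, one_mul, mul_one]
    _ < ε / 2 + ε / 2 := add_lt_add (hm' i) (hn' i)
    _ = ε := by ring

private theorem kron_inv {d : ℕ} {z : Fin d → ℂ} (hz : ∀ i, ‖z i‖ = 1) {g : Fin d → ℂ}
    (hg : KrG z g) (h1 : ∀ i, ‖g i‖ = 1) : KrG z (fun i => (g i)⁻¹) := by
  intro ε hε N
  obtain ⟨n, -, hn'⟩ := hg (ε / 2) (half_pos hε) 0
  obtain ⟨m, hm, -, hm'⟩ := exists_return z hz (half_pos hε) (N + n)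
  refine ⟨m - n, by omega, fun i => ?_⟩
  have hg0 : g i ≠ 0 := by
    intro h0
    have := h1 i
    rw [h0, norm_zero] at this
    exact zero_ne_one this
  have h2 : z i ^ m = z i ^ n * z i ^ (m - n) := by
    rw [← pow_add]; congr 1; omega
  have h3 : z i ^ n * (z i ^ (m - n) - (g i)⁻¹) = (z i ^ m - 1) + (g i - z i ^ n) * (g i)⁻¹ := by
    rw [h2]
    field_simp
    ring
  have h4 : ‖z i ^ (m - n) - (g i)⁻¹‖ = ‖z i ^ n * (z i ^ (m - n) - (g i)⁻¹)‖ := by
    rw [norm_mul, norm_pow, hz i, one_pow, one_mul]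
  rw [h4, h3]
  calc ‖(z i ^ m - 1) + (g i - z i ^ n) * (g i)⁻¹‖
      ≤ ‖z i ^ m - 1‖ + ‖(g i - z i ^ n) * (g i)⁻¹‖ := norm_add_le _ _
    _ = ‖z i ^ m - 1‖ + ‖z i ^ n - g i‖ := by
        rw [norm_mul, norm_inv, h1 i, inv_one, mul_one, norm_sub_rev (g i)]
    _ < ε / 2 + ε / 2 := add_lt_add (hm' i) (hn' i)
    _ = ε := by ring

private noncomputable def kee {d : ℕ} (x : EuclideanSpace ℝ (Fin d)) (i : Fin d) : ℂ :=
  Complex.exp (((2 * Real.pi * x i : ℝ) : ℂ) * Complex.I)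

private theorem kee_norm {d : ℕ} (x : EuclideanSpace ℝ (Fin d)) (i : Fin d) : ‖kee x i‖ = 1 :=
  Complex.norm_exp_ofReal_mul_I _

private theorem kee_add {d : ℕ} (x y : EuclideanSpace ℝ (Fin d)) (i : Fin d) :
    kee (x + y) i = kee x i * kee y i := by
  unfold kee
  rw [← Complex.exp_add, ← add_mul, ← Complex.ofReal_add]
  congr 3
  show 2 * Real.pi * (x i + y i) = _
  ring

private theorem kee_neg {d : ℕ} (x : EuclideanSpace ℝ (Fin d)) (i : Fin d) :
    kee (-x) i = (kee x i)⁻¹ := by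
  unfold kee
  rw [← Complex.exp_neg, ← neg_mul, ← Complex.ofReal_neg]
  congr 3
  show 2 * Real.pi * (-(x i)) = _
  ring

private theorem kee_cont {d : ℕ} (i : Fin d) :
    Continuous fun x : EuclideanSpace ℝ (Fin d) => kee x i := by
  unfold kee
  fun_prop

private def krH {d : ℕ} {z : Fin d → ℂ} (hz : ∀ i, ‖z i‖ = 1) :
    AddSubgroup (EuclideanSpace ℝ (Fin d)) where
  carrier := {x | KrG z (kee x)}
  add_mem' := by
    intro a b ha hb
    have h1 := kron_mul hz ha hb (kee_norm b)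
    have h2 : (fun i => kee a i * kee b i) = kee (a + b) := funext fun i => (kee_add a b i).symm
    rw [h2] at h1
    exact h1
  zero_mem' := by
    intro ε hε N
    obtain ⟨n, hn, -, hn'⟩ := exists_return z hz hε N
    refine ⟨n, hn, fun i => ?_⟩
    have h1 : kee (0 : EuclideanSpace ℝ (Fin d)) i = 1 := by
      unfold kee
      simp
    rw [h1]
    exact hn' i
  neg_mem' := by
    intro a ha
    have h1 := kron_inv hz ha (kee_norm a)
    have h2 : (fun i => (kee a i)⁻¹) = kee (-a) := funext fun i => (kee_neg a i).symm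
    rw [h2] at h1
    exact h1

private theorem krH_closed {d : ℕ} {z : Fin d → ℂ} (hz : ∀ i, ‖z i‖ = 1) :
    IsClosed (krH hz : Set (EuclideanSpace ℝ (Fin d))) := by
  refine isClosed_of_closure_subset fun x hx => ?_
  intro ε hε N
  have h1 : ∀ᶠ y in 𝓝 x, ∀ i, ‖kee y i - kee x i‖ < ε / 2 := by
    refine eventually_all.2 fun i => ?_
    have h2 := (kee_cont (d := d) i).tendsto x
    have h3 := Metric.tendsto_nhds.1 h2 (ε / 2) (half_pos hε)
    filter_upwards [h3] with y hy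
    rwa [dist_eq_norm] at hy
  obtain ⟨y, hy, hyH⟩ := (mem_closure_iff_frequently.1 hx).and_eventually h1 |>.exists
  obtain ⟨n, hn, hn'⟩ := hy (ε / 2) (half_pos hε) N
  refine ⟨n, hn, fun i => ?_⟩
  calc ‖z i ^ n - kee x i‖ = ‖(z i ^ n - kee y i) + (kee y i - kee x i)‖ := by
        congr 1; ring
    _ ≤ ‖z i ^ n - kee y i‖ + ‖kee y i - kee x i‖ := norm_add_le _ _
    _ < ε / 2 + ε / 2 := add_lt_add (hn' i) (hyH i)
    _ = ε := by ring

theorem exists_angle {d : ℕ} (hd : 0 < d) (z : Fin d → ℂ) (hz : ∀ i, ‖z i‖ = 1)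
    (hr : ∀ (i : Fin d) (n : ℕ), 0 < n → z i ^ n ≠ 1) :
    ∃ g : Fin d → ℂ, (∃ i, g i = -1) ∧ (∀ i, g i ≠ 1) ∧
      ∀ ε > 0, ∀ N : ℕ, ∃ n : ℕ, N ≤ n ∧ ∀ i, ‖z i ^ n - g i‖ < ε := by
  obtain ⟨V, hVH, ε, hε, hεV⟩ := exists_line (krH hz) (krH_closed hz)
  -- a small vector of the subgroup all of whose coordinates are nonzero
  have hc : Continuous (fun y : Fin d → ℝ => (WithLp.toLp 2 y : EuclideanSpace ℝ (Fin d))) :=
    PiLp.continuous_toLp 2 _
  obtain ⟨η, hη, hη'⟩ := Metric.continuous_iff.1 hc 0 ε hε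
  have harg : ContinuousAt Complex.arg 1 := Complex.continuousAt_arg Complex.one_mem_slitPlane
  obtain ⟨δ, hδ, hδ'⟩ := Metric.continuousAt_iff.1 harg (2 * Real.pi * η) (by positivity)
  obtain ⟨n, -, hn0, hn⟩ := exists_return z hz hδ 0
  set x : EuclideanSpace ℝ (Fin d) :=
    WithLp.toLp 2 (fun i => Complex.arg (z i ^ n) / (2 * Real.pi)) with hx
  have hxi : ∀ i, x i = Complex.arg (z i ^ n) / (2 * Real.pi) := fun i => rfl
  have hxe : ∀ i, kee x i = z i ^ n := by
    intro i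
    unfold kee
    rw [hxi i, mul_div_cancel₀ _ (by positivity)]
    have h1 := Complex.norm_mul_exp_arg_mul_I (z i ^ n)
    rw [norm_pow, hz i, one_pow, Complex.ofReal_one, one_mul] at h1
    exact h1
  have hxH : x ∈ krH hz := by
    intro ε' hε' N
    obtain ⟨m, hm, -, hm'⟩ := exists_return z hz hε' N
    refine ⟨n + m, by omega, fun i => ?_⟩
    rw [hxe i, pow_add]
    have h1 : z i ^ n * z i ^ m - z i ^ n = z i ^ n * (z i ^ m - 1) := by ring
    rw [h1, norm_mul, norm_pow, hz i, one_pow, one_mul]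
    exact hm' i
  have hxε : ‖x‖ < ε := by
    have h1 : dist (fun i => Complex.arg (z i ^ n) / (2 * Real.pi)) (0 : Fin d → ℝ) < η := by
      rw [dist_pi_lt_iff hη]
      intro i
      have h2 := hδ' (x := z i ^ n) (by rw [dist_eq_norm]; exact hn i)
      rw [Complex.arg_one, dist_zero_right, Real.norm_eq_abs] at h2
      rw [Pi.zero_apply, dist_zero_right, Real.norm_eq_abs, abs_div,
        abs_of_pos (show (0 : ℝ) < 2 * Real.pi by positivity), div_lt_iff₀ (by positivity)]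
      linarith
    have h3 := hη' _ h1
    rw [WithLp.toLp_zero, dist_zero_right] at h3
    exact h3
  have hxV : x ∈ V := hεV x hxH hxε
  have hx0 : ∀ i, x i ≠ 0 := by
    intro i h0
    apply hr i n hn0
    rw [← hxe i]
    unfold kee
    rw [h0]
    simp
  have : Nonempty (Fin d) := ⟨⟨0, hd⟩⟩
  obtain ⟨i₀, hi₀⟩ := Finite.exists_max (fun j => |x j|)
  have hM : 0 < |x i₀| := abs_pos.2 (hx0 i₀)
  set v : EuclideanSpace ℝ (Fin d) := (1 / (2 * |x i₀|)) • x with hv
  have hvi : ∀ i, v i = x i / (2 * |x i₀|) := by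
    intro i
    rw [hv, PiLp.smul_apply, smul_eq_mul]
    ring
  have hvV : v ∈ V := V.smul_mem _ hxV
  have hvH : v ∈ krH hz := hVH hvV
  refine ⟨kee v, ⟨i₀, ?_⟩, fun j => ?_, hvH⟩
  · unfold kee
    rw [hvi i₀]
    rcases lt_or_gt_of_ne (hx0 i₀) with h | h
    · have h1 : 2 * Real.pi * (x i₀ / (2 * |x i₀|)) = -Real.pi := by
        rw [abs_of_neg h]
        field_simp
        rw [div_self (hx0 i₀)]
      rw [h1, Complex.ofReal_neg, neg_mul, Complex.exp_neg, Complex.exp_pi_mul_I]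
      norm_num
    · have h1 : 2 * Real.pi * (x i₀ / (2 * |x i₀|)) = Real.pi := by
        rw [abs_of_pos h]
        field_simp
      rw [h1, Complex.exp_pi_mul_I]
  · unfold kee
    intro h1
    rw [Complex.exp_eq_one_iff] at h1
    obtain ⟨k, hk⟩ := h1
    have h2 : ((2 * Real.pi * v j : ℝ) : ℂ) = ((k * (2 * Real.pi) : ℝ) : ℂ) := by
      have h3 : ((2 * Real.pi * v j : ℝ) : ℂ) * Complex.I
          = ((k * (2 * Real.pi) : ℝ) : ℂ) * Complex.I := by
        rw [hk]; push_cast; ring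
      exact mul_right_cancel₀ Complex.I_ne_zero h3
    have h4 : 2 * Real.pi * v j = k * (2 * Real.pi) := Complex.ofReal_injective h2
    have h5 : v j = k := by
      have h6 : (2 * Real.pi) * v j = (2 * Real.pi) * k := by linarith
      exact mul_left_cancel₀ (by positivity) h6
    have h7 : |v j| ≤ 1 / 2 := by
      rw [hvi j, abs_div, abs_of_pos (show (0 : ℝ) < 2 * |x i₀| by positivity),
        div_le_iff₀ (by positivity)]
      linarith [hi₀ j]
    have h8 : |(k : ℝ)| < 1 := by rw [← h5]; linarith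
    have h9 : |k| < 1 := by exact_mod_cast h8
    have h10 : k = 0 := Int.abs_lt_one_iff.1 h9
    rw [h10, hvi j, Int.cast_zero, div_eq_zero_iff] at h5
    rcases h5 with h | h
    · exact hx0 j h
    · linarith

end Pool.Agent.ANO5.QH
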