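import Pool.Agent.ANO5.QH.Eig
import Pool.Agent.ANO5.QH.Kron

/-!
# ANO5, module QH: matrices with many fixed points are hyperbolic (package QH-MAIN)

Let `λ_1, …, λ_k` be the eigenvalues of `A`, `Q n = |det (1 - A ^ n)| = ∏ |1 - λ_i ^ n|` (`det_int`,
absolute values). The hypotheses say `Q n ≠ 0`, so no `λ_i` is a root of unity, and
`c (Q n) ^ 2 ≤ Q (2 n)`, i.e. (divide by `(Q n) ^ 2`, `1 - λ ^ (2 n) = (1 - λ ^ n) (1 + λ ^ n)`)
`c ≤ ∏ |1 + λ_i ^ n| / |1 - λ_i ^ n|`. For `|λ| ≠ 1` the quotient `|1 + λ ^ n| / |1 - λ ^ n|` tends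
to `1`, so it is `≤ 2` for large `n`. Suppose that some `λ_i` has modulus `1`. Let `z_1, …, z_d`,
`d > 0`, be the eigenvalues of modulus `1` (with multiplicities; for instance the list of the
multiset `roots.filter`), and `g` as in `exists_angle`. Along the `n` with `z_i ^ n → g_i` the
product of the quotients over the eigenvalues of modulus `1` tends to
`∏ |1 + g_i| / |1 - g_i| = 0` (`g_i ≠ 1` for all `i`, one `g_i = -1`); contradiction to `c > 0`.
(With `δ = min |1 - g_i|` and `ε` small: the quotients are at most `2 / (δ / 2)`, and one of them is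
at most `ε / (δ / 2)`.)
-/

set_option autoImplicit false

open Filter Topology

namespace Pool.Agent.ANO5.QH

private theorem exists_fam (S : Multiset ℂ) :
    ∃ (m : ℕ) (w : Fin m → ℂ), S = (Finset.univ : Finset (Fin m)).val.map w := by
  induction S using Quotient.inductionOn with
  | _ l =>
    refine ⟨l.length, l.get, ?_⟩
    rw [Fin.univ_val_map, List.ofFn_get]
    rfl

private theorem ev_two {z : ℂ} (hz : ‖z‖ ≠ 1) :
    ∀ᶠ n : ℕ in atTop, ‖1 + z ^ n‖ ≤ 2 * ‖1 - z ^ n‖ := by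
  rcases lt_or_gt_of_ne hz with h | h
  · have h1 := tendsto_pow_atTop_nhds_zero_of_lt_one (norm_nonneg z) h
    filter_upwards [h1.eventually_lt_const (show (0 : ℝ) < 1 / 3 by norm_num)] with n hn
    have h2 : ‖z ^ n‖ < 1 / 3 := by rwa [norm_pow]
    have h3 := norm_add_le (1 : ℂ) (z ^ n)
    have h4 := norm_sub_norm_le (1 : ℂ) (z ^ n)
    rw [norm_one] at h3 h4
    linarith
  · have h1 := tendsto_pow_atTop_atTop_of_one_lt h
    filter_upwards [h1.eventually_ge_atTop 3] with n hn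
    have h2 : 3 ≤ ‖z ^ n‖ := by rwa [norm_pow]
    have h3 := norm_add_le (1 : ℂ) (z ^ n)
    have h4 := norm_sub_norm_le (z ^ n) (1 : ℂ)
    rw [norm_sub_rev] at h4
    rw [norm_one] at h3 h4
    linarith

private theorem det_norm {k m : ℕ} (A : Matrix (Fin k) (Fin k) ℤ) (w : Fin m → ℂ)
    (hw : (A.map (Int.cast : ℤ → ℂ)).charpoly.roots = (Finset.univ : Finset (Fin m)).val.map w)
    (n : ℕ) : |(((1 - A ^ n).det : ℤ) : ℝ)| = ∏ i, ‖1 - w i ^ n‖ := by
  have h1 := det_int A n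
  rw [hw, Multiset.map_map] at h1
  have h2 : (((1 - A ^ n).det : ℤ) : ℂ) = ∏ i, (1 - w i ^ n) := h1
  rw [← norm_prod, ← h2, Complex.norm_intCast]

theorem norm_ne_one {k : ℕ} (A : Matrix (Fin k) (Fin k) ℤ)
    (h0 : ∀ n : ℕ, 0 < n → (1 - A ^ n).det ≠ 0) {c : ℝ} (hc : 0 < c)
    (h : ∀ n : ℕ, 0 < n →
      c * |(((1 - A ^ n).det : ℤ) : ℝ)| ^ 2 ≤ |(((1 - A ^ (2 * n)).det : ℤ) : ℝ)|) :
    ∀ z : ℂ, (A.map (Int.cast : ℤ → ℂ)).charpoly.IsRoot z → ‖z‖ ≠ 1 := by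
  classical
  intro z0 hz0 hz1
  obtain ⟨m, w, hw⟩ := exists_fam (A.map (Int.cast : ℤ → ℂ)).charpoly.roots
  have hmem := (Polynomial.mem_roots (Matrix.charpoly_monic _).ne_zero).2 hz0
  rw [hw, Multiset.mem_map] at hmem
  obtain ⟨i0, -, hi0⟩ := hmem
  have hQ := det_norm A w hw
  have hpos : ∀ n : ℕ, 0 < n → ∀ i, 0 < ‖1 - w i ^ n‖ := by
    intro n hn i
    have h1 : |(((1 - A ^ n).det : ℤ) : ℝ)| ≠ 0 := by
      rw [abs_ne_zero]
      exact_mod_cast h0 n hn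
    rw [hQ n] at h1
    exact lt_of_le_of_ne (norm_nonneg _) (Ne.symm (Finset.prod_ne_zero_iff.1 h1 i
      (Finset.mem_univ i)))
  have key : ∀ n : ℕ, 0 < n → c * ∏ i, ‖1 - w i ^ n‖ ≤ ∏ i, ‖1 + w i ^ n‖ := by
    intro n hn
    have h1 := h n hn
    rw [hQ, hQ] at h1
    have h2 : ∏ i, ‖1 - w i ^ (2 * n)‖ = (∏ i, ‖1 - w i ^ n‖) * ∏ i, ‖1 + w i ^ n‖ := by
      rw [← Finset.prod_mul_distrib]
      refine Finset.prod_congr rfl fun i _ => ?_
      rw [← norm_mul]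
      congr 1
      ring
    rw [h2] at h1
    have h3 : 0 < ∏ i, ‖1 - w i ^ n‖ := Finset.prod_pos fun i _ => hpos n hn i
    have h4 : (∏ i, ‖1 - w i ^ n‖) * (c * ∏ i, ‖1 - w i ^ n‖) ≤
        (∏ i, ‖1 - w i ^ n‖) * ∏ i, ‖1 + w i ^ n‖ := by
      calc _ = c * (∏ i, ‖1 - w i ^ n‖) ^ 2 := by ring
        _ ≤ _ := h1
    exact le_of_mul_le_mul_left h4 h3
  -- the eigenvalues of modulus one
  let J : Type := {i : Fin m // ‖w i‖ = 1}
  obtain ⟨d, ⟨e⟩⟩ : ∃ d : ℕ, Nonempty (Fin d ≃ J) :=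
    ⟨Fintype.card J, ⟨(Fintype.equivFin J).symm⟩⟩
  have hd : 0 < d := Fin.pos (e.symm ⟨i0, by rw [hi0]; exact hz1⟩)
  obtain ⟨g, ⟨i1, hi1⟩, hg, happ⟩ := exists_angle hd (fun j => w (e j).1) (fun j => (e j).2)
    (fun j n hn hc1 => by
      have h1 := hpos n hn (e j).1
      rw [hc1, sub_self, norm_zero] at h1
      exact lt_irrefl _ h1)
  have hne : (Finset.univ : Finset (Fin d)).Nonempty := ⟨i1, Finset.mem_univ _⟩
  obtain ⟨i2, -, hi2⟩ := Finset.exists_min_image Finset.univ (fun j => ‖1 - g j‖) hne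
  have hδ : 0 < ‖1 - g i2‖ := norm_pos_iff.2 (sub_ne_zero.2 (hg i2).symm)
  set δ := ‖1 - g i2‖ with hδd
  have hev : ∀ᶠ n : ℕ in atTop, ∀ i : {i : Fin m // ¬ ‖w i‖ = 1},
      ‖1 + w i.1 ^ n‖ ≤ 2 * ‖1 - w i.1 ^ n‖ := by
    rw [eventually_all]
    exact fun i => ev_two i.2
  obtain ⟨N, hN⟩ := eventually_atTop.1 hev
  obtain ⟨ε, hε, hε1, hε2⟩ : ∃ ε > 0, ε ≤ δ / 2 ∧
      ε * 2 ^ (d + m) < c * (δ / 2) ^ d := by
    refine ⟨min (δ / 2) (c * (δ / 2) ^ d / 2 ^ (d + m) / 2), by positivity,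
      min_le_left _ _, ?_⟩
    have h1 : 0 < c * (δ / 2) ^ d := by positivity
    have h2 : (0 : ℝ) < 2 ^ (d + m) := by positivity
    calc min (δ / 2) (c * (δ / 2) ^ d / 2 ^ (d + m) / 2) * 2 ^ (d + m)
        ≤ (c * (δ / 2) ^ d / 2 ^ (d + m) / 2) * 2 ^ (d + m) :=
          mul_le_mul_of_nonneg_right (min_le_right _ _) h2.le
      _ = c * (δ / 2) ^ d / 2 := by field_simp
      _ < _ := by linarith
  obtain ⟨n, hn, hap⟩ := happ ε hε (max N 1)
  have hn0 : 0 < n := lt_of_lt_of_le zero_lt_one ((le_max_right N 1).trans hn)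
  have hk := key n hn0
  rw [← Fintype.prod_subtype_mul_prod_subtype (fun i : Fin m => ‖w i‖ = 1)
    (fun i => ‖1 - w i ^ n‖), ← Fintype.prod_subtype_mul_prod_subtype
    (fun i : Fin m => ‖w i‖ = 1) (fun i => ‖1 + w i ^ n‖)] at hk
  have hJ1 : (δ / 2) ^ d ≤ ∏ i : J, ‖1 - w i.1 ^ n‖ := by
    rw [← Equiv.prod_comp e]
    calc (δ / 2) ^ d = ∏ _j : Fin d, (δ / 2) := by
          rw [Finset.prod_const, Finset.card_univ, Fintype.card_fin]
      _ ≤ _ := by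
          refine Finset.prod_le_prod (fun _ _ => by positivity) fun j _ => ?_
          have h1 : ‖w (e j).1 ^ n - g j‖ < ε := hap j
          have h2 : δ ≤ ‖1 - g j‖ := hi2 j (Finset.mem_univ j)
          have h3 : ‖1 - g j‖ ≤ ‖1 - w (e j).1 ^ n‖ + ‖w (e j).1 ^ n - g j‖ := by
            refine le_trans (le_of_eq ?_) (norm_add_le _ _)
            congr 1
            ring
          linarith
  have hJ2 : ∏ i : J, ‖1 + w i.1 ^ n‖ ≤ ε * 2 ^ d := by
    rw [← Equiv.prod_comp e, ← Finset.mul_prod_erase Finset.univ _ (Finset.mem_univ i1)]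
    refine mul_le_mul ?_ ?_ (Finset.prod_nonneg fun _ _ => norm_nonneg _) hε.le
    · have h1 := hap i1
      rw [hi1, sub_neg_eq_add, add_comm] at h1
      exact h1.le
    · calc ∏ j ∈ Finset.univ.erase i1, ‖1 + w (e j).1 ^ n‖
          ≤ ∏ _j ∈ Finset.univ.erase i1, (2 : ℝ) := by
            refine Finset.prod_le_prod (fun _ _ => norm_nonneg _) fun j _ => ?_
            have h1 := norm_add_le (1 : ℂ) (w (e j).1 ^ n)
            rw [norm_one, norm_pow, (e j).2, one_pow] at h1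
            linarith
        _ ≤ 2 ^ d := by
            rw [Finset.prod_const]
            refine pow_le_pow_right₀ (by norm_num) ?_
            rw [Finset.card_erase_of_mem (Finset.mem_univ _), Finset.card_univ, Fintype.card_fin]
            exact Nat.sub_le _ _
  have hK : ∏ i : {i : Fin m // ¬ ‖w i‖ = 1}, ‖1 + w i.1 ^ n‖ ≤
      2 ^ m * ∏ i : {i : Fin m // ¬ ‖w i‖ = 1}, ‖1 - w i.1 ^ n‖ := by
    calc _ ≤ ∏ i : {i : Fin m // ¬ ‖w i‖ = 1}, (2 * ‖1 - w i.1 ^ n‖) :=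
          Finset.prod_le_prod (fun _ _ => norm_nonneg _)
            fun i _ => hN n ((le_max_left N 1).trans hn) i
      _ = 2 ^ Fintype.card {i : Fin m // ¬ ‖w i‖ = 1} *
          ∏ i : {i : Fin m // ¬ ‖w i‖ = 1}, ‖1 - w i.1 ^ n‖ := by
          rw [Finset.prod_mul_distrib, Finset.prod_const, Finset.card_univ]
      _ ≤ _ := by
          refine mul_le_mul_of_nonneg_right (pow_le_pow_right₀ (by norm_num) ?_)
            (Finset.prod_nonneg fun _ _ => norm_nonneg _)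
          refine (Fintype.card_subtype_le _).trans (le_of_eq ?_)
          rw [Fintype.card_fin]
  have hP : 0 < ∏ i : {i : Fin m // ¬ ‖w i‖ = 1}, ‖1 - w i.1 ^ n‖ :=
    Finset.prod_pos fun i _ => hpos n hn0 i.1
  have hfin : (c * (δ / 2) ^ d) * (∏ i : {i : Fin m // ¬ ‖w i‖ = 1}, ‖1 - w i.1 ^ n‖) ≤
      (ε * 2 ^ (d + m)) * ∏ i : {i : Fin m // ¬ ‖w i‖ = 1}, ‖1 - w i.1 ^ n‖ := by
    calc _ ≤ c * ((∏ i : J, ‖1 - w i.1 ^ n‖) *
          ∏ i : {i : Fin m // ¬ ‖w i‖ = 1}, ‖1 - w i.1 ^ n‖) := by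
          rw [mul_assoc]
          exact mul_le_mul_of_nonneg_left (mul_le_mul_of_nonneg_right hJ1 hP.le) hc.le
      _ ≤ _ := hk
      _ ≤ (ε * 2 ^ d) * (2 ^ m * ∏ i : {i : Fin m // ¬ ‖w i‖ = 1}, ‖1 - w i.1 ^ n‖) :=
          mul_le_mul hJ2 hK (Finset.prod_nonneg fun _ _ => norm_nonneg _) (by positivity)
      _ = _ := by
          rw [pow_add]
          ring
  have := le_of_mul_le_mul_right hfin hP
  linarith

end Pool.Agent.ANO5.QH
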