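import Mathlib

/-!
# ANO5, module QH: the determinant of `1 - B ^ n` (package QH-EIG)

For a complex matrix `B` with the eigenvalues `λ` (with multiplicities: `B.charpoly.roots`):
`det (1 - B ^ n) = ∏ (1 - λ ^ n)`. Proof. `n = 0` is trivial if both sides are `0` (`k > 0`) or `1`
(`k = 0`, no roots). For `n > 0`: `X ^ n - 1 = ∏ (X - ζ)` over the `n`-th roots of unity `ζ`
(`Polynomial.X_pow_sub_one_eq_prod`, or `IsAlgClosed.splits`), so
`B ^ n - 1 = ∏ (B - ζ)` (`Polynomial.aeval`) and
`det (B ^ n - 1) = ∏_ζ det (B - ζ) = ∏_ζ (-1) ^ k χ(ζ) = ∏_ζ (-1) ^ k ∏_λ (ζ - λ)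
= ∏_ζ ∏_λ (λ - ζ) = ∏_λ (λ ^ n - 1)`
(`Matrix.eval_charpoly` or `Matrix.eval_det`, `Polynomial.eval_eq_prod_roots_sub_of_monic_of_splits_id`).
-/

set_option autoImplicit false

open Polynomial

namespace Pool.Agent.ANO5.QH

private theorem eig_card {k : ℕ} (B : Matrix (Fin k) (Fin k) ℂ) :
    Multiset.card B.charpoly.roots = k := by
  rw [← (IsAlgClosed.splits B.charpoly).natDegree_eq_card_roots,
    Matrix.charpoly_natDegree_eq_dim, Fintype.card_fin]

private theorem eig_C {k : ℕ} (B : Matrix (Fin k) (Fin k) ℂ) (c : ℂ) :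
    (aeval B (C c)).det = (B.charpoly.roots.map fun z => (C c).eval z).prod := by
  rw [aeval_C, Algebra.algebraMap_eq_smul_one, Matrix.det_smul, Matrix.det_one, mul_one,
    Fintype.card_fin]
  simp only [eval_C]
  rw [Multiset.map_const', Multiset.prod_replicate, eig_card]

private theorem eig_X {k : ℕ} (B : Matrix (Fin k) (Fin k) ℂ) (a : ℂ) :
    (aeval B (X - C a)).det = (B.charpoly.roots.map fun z => (X - C a).eval z).prod := by
  have h1 := (IsAlgClosed.splits B.charpoly).eval_eq_prod_roots_of_monic B.charpoly_monic a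
  rw [Matrix.eval_charpoly] at h1
  have h2 : aeval B (X - C a) = -(Matrix.scalar (Fin k) a - B) := by
    rw [map_sub, aeval_X, aeval_C, neg_sub]
    rfl
  rw [h2, Matrix.det_neg, h1, Fintype.card_fin]
  have h3 : (B.charpoly.roots.map fun z => (X - C a).eval z) =
      B.charpoly.roots.map fun z => (-1) * (a - z) := by
    refine Multiset.map_congr rfl fun z _ => ?_
    rw [eval_sub, eval_X, eval_C]
    ring
  rw [h3, Multiset.prod_map_mul, Multiset.map_const', Multiset.prod_replicate, eig_card]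

private theorem eig_mul {k : ℕ} {B : Matrix (Fin k) (Fin k) ℂ} {p q : ℂ[X]}
    (hp : (aeval B p).det = (B.charpoly.roots.map fun z => p.eval z).prod)
    (hq : (aeval B q).det = (B.charpoly.roots.map fun z => q.eval z).prod) :
    (aeval B (p * q)).det = (B.charpoly.roots.map fun z => (p * q).eval z).prod := by
  rw [map_mul, Matrix.det_mul, hp, hq, ← Multiset.prod_map_mul]
  simp only [eval_mul]

private theorem eig_prod {k : ℕ} (B : Matrix (Fin k) (Fin k) ℂ) (s : Multiset ℂ) :
    (aeval B (s.map (X - C ·)).prod).det =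
      (B.charpoly.roots.map fun z => ((s.map (X - C ·)).prod).eval z).prod := by
  induction s using Multiset.induction_on with
  | empty =>
    have h := eig_C B 1
    rw [C_1] at h
    simp
  | cons a s ih =>
    rw [Multiset.map_cons, Multiset.prod_cons]
    exact eig_mul (eig_X B a) ih

private theorem eig_poly {k : ℕ} (B : Matrix (Fin k) (Fin k) ℂ) (p : ℂ[X]) :
    (aeval B p).det = (B.charpoly.roots.map fun z => p.eval z).prod := by
  rw [(IsAlgClosed.splits p).eq_prod_roots]
  exact eig_mul (eig_C B _) (eig_prod B _)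

theorem det_one_sub_pow {k : ℕ} (B : Matrix (Fin k) (Fin k) ℂ) (n : ℕ) :
    (1 - B ^ n).det = (B.charpoly.roots.map fun z => 1 - z ^ n).prod := by
  have h := eig_poly B (1 - X ^ n)
  rw [map_sub, map_one, map_pow, aeval_X] at h
  rw [h]
  simp only [eval_sub, eval_one, eval_pow, eval_X]

/-- The version for integer matrices. -/
theorem det_int {k : ℕ} (A : Matrix (Fin k) (Fin k) ℤ) (n : ℕ) :
    (((1 - A ^ n).det : ℤ) : ℂ) =
      ((A.map (Int.cast : ℤ → ℂ)).charpoly.roots.map fun z => 1 - z ^ n).prod := by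
  rw [← det_one_sub_pow]
  have h1 : (1 - A.map (Int.cast : ℤ → ℂ) ^ n) =
      (Int.castRingHom ℂ).mapMatrix (1 - A ^ n) := by
    rw [map_sub, map_one, map_pow]
    rfl
  rw [h1, ← RingHom.map_det]
  rfl

end Pool.Agent.ANO5.QH
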